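import Mathlib
import Pool.Agent.H211Torus.Final

/-!
# The transport cost of exponent `1/2` of the occupation measure of Brownian motion on `𝕋³`

For a stationary Brownian motion on the torus `𝕋³` the expected transport cost
`E W^{1/2}_{𝕋³}(μ_T)` is at least `c √T log T`; it is not of order `√(T log T)`.

Proof: duality with the `1/2`-Hölder function `∑_k 2^{-k} K_k * sgn (K_k * μ_T)`, where `K_k` is a
Fejér kernel of degree `4^k` times `cos (4π 4^k x₁)`: all scales `4^k ≤ T^{1/3}` contribute the same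
amount `c √T`, by a lower bound of the second and an upper bound of the fourth moment of
`∫_0^T K_k (B_t - y) dt`.
-/

set_option autoImplicit false

namespace Pool.Agent.Results.MP_1d7982_pr.CriticalCost

open MeasureTheory ProbabilityTheory Pool.Agent.H211Torus
open scoped ENNReal NNReal

universe u

/-- (1) `E W^{1/2}(μ_T) ≥ 10⁻⁹ √T log T` for all `T ≥ 64`; (2) the ratio of `E W^{1/2}(μ_T)` and
`√(T log T)` tends to infinity; (3) in particular the two functions are not comparable. -/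
theorem result :
    (∀ (Ω : Type u) [MeasurableSpace Ω] (P : Measure Ω) [IsProbabilityMeasure P]
      (X : ℝ≥0 → Ω → Fin 3 → ℝ), IsStationaryBM P X → ∀ T : ℝ, 64 ≤ T →
      ENNReal.ofReal (1 / 1000000000 * (Real.sqrt T * Real.log T)) ≤
        ∫⁻ ω, torusCost (1 / 2) (occ X T ω) ∂P) ∧
    (∀ (Ω : Type u) [MeasurableSpace Ω] (P : Measure Ω) [IsProbabilityMeasure P]
      (X : ℝ≥0 → Ω → Fin 3 → ℝ), IsStationaryBM P X → ∀ c : ℝ, 0 < c →
      ∃ T₀ : ℝ, ∀ T : ℝ, T₀ ≤ T → ENNReal.ofReal (c * Real.sqrt (T * Real.log T)) <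
        ∫⁻ ω, torusCost (1 / 2) (occ X T ω) ∂P) ∧
    (∀ (Ω : Type u) [MeasurableSpace Ω] (P : Measure Ω) [IsProbabilityMeasure P]
      (X : ℝ≥0 → Ω → Fin 3 → ℝ), IsStationaryBM P X → ¬ ∃ c : ℝ, 0 < c ∧
      ∃ T₀ : ℝ, ∀ T : ℝ, T₀ ≤ T →
        ENNReal.ofReal (c⁻¹ * Real.sqrt (T * Real.log T)) ≤
          ∫⁻ ω, torusCost (1 / 2) (occ X T ω) ∂P ∧
        ∫⁻ ω, torusCost (1 / 2) (occ X T ω) ∂P ≤
          ENNReal.ofReal (c * Real.sqrt (T * Real.log T))) := by
  have h2 : ∀ (Ω : Type u) [MeasurableSpace Ω] (P : Measure Ω) [IsProbabilityMeasure P]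
      (X : ℝ≥0 → Ω → Fin 3 → ℝ), IsStationaryBM P X → ∀ c : ℝ, 0 < c →
      ∃ T₀ : ℝ, ∀ T : ℝ, T₀ ≤ T → ENNReal.ofReal (c * Real.sqrt (T * Real.log T)) <
        ∫⁻ ω, torusCost (1 / 2) (occ X T ω) ∂P := by
    intro Ω _ P _ X h c hc
    refine ⟨max 64 (Real.exp ((c * 1000000000) ^ 2 + 1)), fun T hT => ?_⟩
    have hT64 : 64 ≤ T := (le_max_left _ _).trans hT
    have hT2 : Real.exp ((c * 1000000000) ^ 2 + 1) ≤ T := (le_max_right _ _).trans hT
    have hT0 : 0 < T := by linarith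
    have hlog : (c * 1000000000) ^ 2 + 1 ≤ Real.log T := by
      rwa [Real.le_log_iff_exp_le hT0]
    have hlog0 : 0 < Real.log T := lt_of_lt_of_le (by positivity) hlog
    refine lt_of_lt_of_le ?_ (main_lower h T hT64)
    rw [ENNReal.ofReal_lt_ofReal_iff (by positivity), Real.sqrt_mul hT0.le]
    have h3 : c * 1000000000 < Real.sqrt (Real.log T) := by
      rw [Real.lt_sqrt (by positivity)]
      linarith
    have h4 : Real.log T = Real.sqrt (Real.log T) * Real.sqrt (Real.log T) :=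
      (Real.mul_self_sqrt hlog0.le).symm
    have h5 : 0 < Real.sqrt T * Real.sqrt (Real.log T) := by positivity
    calc c * (Real.sqrt T * Real.sqrt (Real.log T))
        = 1 / 1000000000 * ((c * 1000000000) * (Real.sqrt T * Real.sqrt (Real.log T))) := by ring
      _ < 1 / 1000000000 * (Real.sqrt (Real.log T) * (Real.sqrt T * Real.sqrt (Real.log T))) :=
        mul_lt_mul_of_pos_left (mul_lt_mul_of_pos_right h3 h5) (by norm_num)
      _ = 1 / 1000000000 * (Real.sqrt T * (Real.sqrt (Real.log T) * Real.sqrt (Real.log T))) := by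
        ring
      _ = 1 / 1000000000 * (Real.sqrt T * Real.log T) := by rw [← h4]
  refine ⟨fun Ω _ P _ X h T hT => main_lower h T hT, h2, ?_⟩
  rintro Ω _ P _ X h ⟨c, hc, T₀, hT⟩
  obtain ⟨T₁, hT₁⟩ := h2 Ω P X h c hc
  exact absurd (hT (max T₀ T₁) (le_max_left _ _)).2
    (not_le.mpr (hT₁ (max T₀ T₁) (le_max_right _ _)))

end Pool.Agent.Results.MP_1d7982_pr.CriticalCost
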